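import Mathlib

set_option autoImplicit false

namespace Pool.Agent.Results.MP_4a3f67_an.Six

open Matrix Filter Topology

/-- The quadratic form `x ↦ xᵀ A x` on Euclidean space. -/
noncomputable def q {n : ℕ} (A : Matrix (Fin n) (Fin n) ℝ) (x : EuclideanSpace ℝ (Fin n)) : ℝ :=
  x.ofLp ⬝ᵥ (A *ᵥ x.ofLp)

/-- The feasible set `q₁ = 1`, `q₂ ≤ 1`. -/
def Feas {n : ℕ} (A1 A2 : Matrix (Fin n) (Fin n) ℝ) : Set (EuclideanSpace ℝ (Fin n)) :=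
  {x | q A1 x = 1 ∧ q A2 x ≤ 1}

/-- Strict local minimizer of `q₀` on the feasible set. -/
def StrictLocMin {n : ℕ} (A0 A1 A2 : Matrix (Fin n) (Fin n) ℝ) (x : EuclideanSpace ℝ (Fin n)) :
    Prop :=
  x ∈ Feas A1 A2 ∧ ∃ ε : ℝ, 0 < ε ∧
    ∀ y ∈ Feas A1 A2, 0 < ‖y - x‖ → ‖y - x‖ < ε → q A0 x < q A0 y

/-- Some feasible point has a smaller objective value. -/
def NonGlobal {n : ℕ} (A0 A1 A2 : Matrix (Fin n) (Fin n) ℝ) (x : EuclideanSpace ℝ (Fin n)) :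
    Prop :=
  ∃ y ∈ Feas A1 A2, q A0 y < q A0 x

def B0 : Matrix (Fin 4) (Fin 4) ℝ :=
  !![-6, -12, 9, -27; -12, 0, -4, -18; 9, -4, 6, 15; -27, -18, 15, -12]
def B1 : Matrix (Fin 4) (Fin 4) ℝ := !![1, 1, -1, 4; 1, 1, 1, 0; -1, 1, 1, 0; 4, 0, 0, 1]
def B2 : Matrix (Fin 4) (Fin 4) ℝ := !![1, 7, -4, 7; 7, 1, 3, 9; -4, 3, 1, -3; 7, 9, -3, 1]

lemma q0 (x : EuclideanSpace ℝ (Fin 4)) : q B0 x =
    -6 * x 0 ^ 2 + 6 * x 2 ^ 2 - 12 * x 3 ^ 2 - 24 * x 0 * x 1 + 18 * x 0 * x 2 - 54 * x 0 * x 3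
      - 8 * x 1 * x 2 - 36 * x 1 * x 3 + 30 * x 2 * x 3 := by
  simp [q, B0, dotProduct, mulVec, Fin.sum_univ_four]; ring

lemma q1 (x : EuclideanSpace ℝ (Fin 4)) : q B1 x =
    x 0 ^ 2 + x 1 ^ 2 + x 2 ^ 2 + x 3 ^ 2 + 2 * x 0 * x 1 - 2 * x 0 * x 2 + 8 * x 0 * x 3
      + 2 * x 1 * x 2 := by
  simp [q, B1, dotProduct, mulVec, Fin.sum_univ_four]; ring

lemma q2 (x : EuclideanSpace ℝ (Fin 4)) : q B2 x =
    x 0 ^ 2 + x 1 ^ 2 + x 2 ^ 2 + x 3 ^ 2 + 14 * x 0 * x 1 - 8 * x 0 * x 2 + 14 * x 0 * x 3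
      + 6 * x 1 * x 2 + 18 * x 1 * x 3 - 6 * x 2 * x 3 := by
  simp [q, B2, dotProduct, mulVec, Fin.sum_univ_four]; ring

lemma key {L l G g w s μ : ℝ} (hs : 0 < s) (hG : 0 ≤ G) (hGη : G < 1 / 12) (hμ : 1 ≤ μ)
    (hL : s ≤ L + 6 * l ^ 2) (hw : 1 < w) (hGl : G = w * l + g) (hg : g ^ 2 ≤ 900 * s ^ 2)
    (hs' : s < 1 / 10800) : 0 < L + μ * G := by
  have h1 : l ^ 2 ≤ (G - g) ^ 2 := by
    have : G - g = w * l := by linarith
    rw [this, mul_pow]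
    have : 1 ≤ w ^ 2 := by nlinarith
    nlinarith [sq_nonneg l]
  have h2 : (G - g) ^ 2 ≤ 2 * G ^ 2 + 2 * g ^ 2 := by nlinarith [sq_nonneg (G + g)]
  nlinarith [mul_nonneg hG (sub_nonneg.2 hμ), mul_nonneg hG (sub_nonneg.2 hGη.le),
    mul_pos hs (sub_pos.2 hs')]

lemma gb {a b c u v w : ℝ} (ha : |u| ≤ 18) (hb : |v| ≤ 6) (hc : |w| ≤ 18)
    : (u * a * b + v * a * c + w * b * c) ^ 2 ≤ 900 * (a ^ 2 + b ^ 2 + c ^ 2) ^ 2 := by
  have : |u * a * b + v * a * c + w * b * c| ≤ 30 * (a ^ 2 + b ^ 2 + c ^ 2) := by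
    rw [abs_le] at ha hb hc ⊢
    constructor <;>
    nlinarith [mul_nonneg (sub_nonneg.2 ha.1) (sq_nonneg (a + b)),
      mul_nonneg (sub_nonneg.2 ha.1) (sq_nonneg (a - b)),
      mul_nonneg (sub_nonneg.2 ha.2) (sq_nonneg (a + b)),
      mul_nonneg (sub_nonneg.2 ha.2) (sq_nonneg (a - b)),
      mul_nonneg (sub_nonneg.2 hb.1) (sq_nonneg (a + c)),
      mul_nonneg (sub_nonneg.2 hb.1) (sq_nonneg (a - c)),
      mul_nonneg (sub_nonneg.2 hb.2) (sq_nonneg (a + c)),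
      mul_nonneg (sub_nonneg.2 hb.2) (sq_nonneg (a - c)),
      mul_nonneg (sub_nonneg.2 hc.1) (sq_nonneg (b + c)),
      mul_nonneg (sub_nonneg.2 hc.1) (sq_nonneg (b - c)),
      mul_nonneg (sub_nonneg.2 hc.2) (sq_nonneg (b + c)),
      mul_nonneg (sub_nonneg.2 hc.2) (sq_nonneg (b - c)), sq_nonneg a, sq_nonneg b, sq_nonneg c]
  have h2 := sq_le_sq' (abs_le.1 this).1 (abs_le.1 this).2
  nlinarith

noncomputable def e (i : Fin 4) (σ : ℝ) : EuclideanSpace ℝ (Fin 4) := EuclideanSpace.single i σ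

noncomputable def GG (y : EuclideanSpace ℝ (Fin 4)) : ℝ := q B1 y - q B2 y

lemma ev (i j k l : Fin 4) (σ : ℝ) (hσ : σ ^ 2 = 1) (hG : GG (e i σ) = 0)
    (hj : j ≠ i) (hk : k ≠ i) (hl : l ≠ i) :
    ∃ ε : ℝ, 0 < ε ∧ ∀ y : EuclideanSpace ℝ (Fin 4), ‖y - e i σ‖ < ε →
      GG y < 1 / 12 ∧ 1 < 2 * σ * y i ∧ y j ^ 2 + y k ^ 2 + y l ^ 2 < 1 / 10800 := by
  have c : ∀ m : Fin 4, Continuous fun y : EuclideanSpace ℝ (Fin 4) => y m := fun m => by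
    fun_prop
  have cG : Continuous GG := by
    unfold GG
    simp only [q1, q2]
    fun_prop
  have h1 : ∀ᶠ y in 𝓝 (e i σ), GG y < 1 / 12 :=
    cG.continuousAt.eventually_lt continuousAt_const (by rw [hG]; norm_num)
  have h2 : ∀ᶠ y in 𝓝 (e i σ), 1 < 2 * σ * y i :=
    continuousAt_const.eventually_lt (continuous_const.mul (c i)).continuousAt (by
      simp only [e, PiLp.single_apply, if_true]; nlinarith)
  have h3 : ∀ᶠ y in 𝓝 (e i σ), y j ^ 2 + y k ^ 2 + y l ^ 2 < 1 / 10800 :=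
    ((((c j).pow 2).add ((c k).pow 2)).add ((c l).pow 2)).continuousAt.eventually_lt
      continuousAt_const (by simp [e, hj, hk, hl])
  obtain ⟨ε, hε, h⟩ := Metric.eventually_nhds_iff.1 (h1.and (h2.and h3))
  exact ⟨ε, hε, fun y hy => h (by rwa [dist_eq_norm])⟩

lemma pos (i j k l : Fin 4) (σ : ℝ) (hσ : σ ^ 2 = 1) (y : EuclideanSpace ℝ (Fin 4))
    (hall : ∀ m : Fin 4, m = i ∨ m = j ∨ m = k ∨ m = l) (hj : j ≠ i) (hk : k ≠ i) (hl : l ≠ i)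
    (hy : 0 < ‖y - e i σ‖) (h1 : 1 < 2 * σ * y i)
    (hq : y j = 0 → y k = 0 → y l = 0 → y i ^ 2 = 1) : 0 < y j ^ 2 + y k ^ 2 + y l ^ 2 := by
  by_contra h
  have a : y j = 0 := by nlinarith [sq_nonneg (y j), sq_nonneg (y k), sq_nonneg (y l)]
  have b : y k = 0 := by nlinarith [sq_nonneg (y j), sq_nonneg (y k), sq_nonneg (y l)]
  have c : y l = 0 := by nlinarith [sq_nonneg (y j), sq_nonneg (y k), sq_nonneg (y l)]
  have d := hq a b c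
  have d2 : y i = σ := by
    have : (y i - σ) * (y i + σ) = 0 := by nlinarith
    rcases mul_eq_zero.1 this with h | h
    · linarith
    · have : y i = -σ := by linarith
      rw [this] at h1; nlinarith
  have : y = e i σ := by
    ext m
    rcases hall m with rfl | rfl | rfl | rfl <;> simp [e, *]
  rw [this] at hy; simp at hy

lemma m0 (σ : ℝ) (hσ : σ ^ 2 = 1) : StrictLocMin B0 B1 B2 (e 0 σ) := by
  refine ⟨⟨by simp [q1, e, hσ], by simp [q2, e, hσ]⟩, ?_⟩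
  obtain ⟨ε, hε, h⟩ := ev 0 1 2 3 σ hσ (by simp [GG, q1, q2, e]) (by decide) (by decide) (by decide)
  refine ⟨ε, hε, fun y ⟨f1, f2⟩ y0 y1 => ?_⟩
  obtain ⟨a, b, c⟩ := h y y1
  have s := pos 0 1 2 3 σ hσ y (by decide) (by decide) (by decide) (by decide) y0 b
    (fun u v w => by rw [q1, u, v, w] at f1; linarith)
  have := key (L := q B0 y + 6 * q B1 y - GG y) (l := σ * (-6 * y 1 + 3 * y 2 - 3 * y 3)) (μ := 1)
    (g := -4 * y 1 * y 2 + 6 * y 1 * y 3 * (-3) + 6 * y 2 * y 3) s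
    (by unfold GG; linarith) a le_rfl ?_ b ?_ ?_ c
  · have e1 : q B0 (e 0 σ) = -6 := by simp [q0, e, hσ]
    linarith
  · rw [mul_pow, hσ, GG, q0, q1, q2]
    nlinarith [sq_nonneg (113 * y 1 - 50 * y 2 + 45 * y 3), sq_nonneg (598 * y 2 + 185 * y 3),
      sq_nonneg (y 3), sq_nonneg (-6 * y 1 + 3 * y 2 - 3 * y 3)]
  · rw [GG, q1, q2]
    linear_combination (-2 * y 0 * (-6 * y 1 + 3 * y 2 - 3 * y 3)) * hσ
  · have := gb (a := y 2) (b := y 3) (c := y 1) (u := 6) (v := -4) (w := -18) (by norm_num)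
      (by norm_num) (by norm_num)
    convert this using 2 <;> ring

lemma m1 (σ : ℝ) (hσ : σ ^ 2 = 1) : StrictLocMin B0 B1 B2 (e 1 σ) := by
  refine ⟨⟨by simp [q1, e, hσ], by simp [q2, e, hσ]⟩, ?_⟩
  obtain ⟨ε, hε, h⟩ := ev 1 0 2 3 σ hσ (by simp [GG, q1, q2, e]) (by decide) (by decide) (by decide)
  refine ⟨ε, hε, fun y ⟨f1, f2⟩ y0 y1 => ?_⟩
  obtain ⟨a, b, c⟩ := h y y1
  have s := pos 1 0 2 3 σ hσ y (by decide) (by decide) (by decide) (by decide) y0 b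
    (fun u v w => by rw [q1, u, v, w] at f1; linarith)
  have := key (L := q B0 y - 2 * GG y) (l := σ * (-6 * y 0 - 2 * y 2 - 9 * y 3)) (μ := 2)
    (g := 6 * y 0 * y 2 - 6 * y 0 * y 3 + 6 * y 2 * y 3) s
    (by unfold GG; linarith) a (by norm_num) ?_ b ?_ ?_ c
  · have e1 : q B0 (e 1 σ) = 0 := by simp [q0, e]
    linarith
  · rw [mul_pow, hσ, GG, q0, q1, q2]
    nlinarith [sq_nonneg (209 * y 0 + 75 * y 2 + 303 * y 3), sq_nonneg (109 * y 2 + 432 * y 3),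
      sq_nonneg (y 3)]
  · rw [GG, q1, q2]
    linear_combination (-2 * y 1 * (-6 * y 0 - 2 * y 2 - 9 * y 3)) * hσ
  · have := gb (a := y 0) (b := y 2) (c := y 3) (u := 6) (v := -6) (w := 6) (by norm_num)
      (by norm_num) (by norm_num)
    convert this using 2 <;> ring

lemma m2 (σ : ℝ) (hσ : σ ^ 2 = 1) : StrictLocMin B0 B1 B2 (e 2 σ) := by
  refine ⟨⟨by simp [q1, e, hσ], by simp [q2, e, hσ]⟩, ?_⟩
  obtain ⟨ε, hε, h⟩ := ev 2 0 1 3 σ hσ (by simp [GG, q1, q2, e]) (by decide) (by decide) (by decide)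
  refine ⟨ε, hε, fun y ⟨f1, f2⟩ y0 y1 => ?_⟩
  obtain ⟨a, b, c⟩ := h y y1
  have s := pos 2 0 1 3 σ hσ y (by decide) (by decide) (by decide) (by decide) y0 b
    (fun u v w => by rw [q1, u, v, w] at f1; linarith)
  have := key (L := q B0 y - 6 * q B1 y - 5 * GG y) (l := σ * (3 * y 0 - 2 * y 1 + 3 * y 3))
    (μ := 5) (g := -12 * y 0 * y 1 - 6 * y 0 * y 3 - 18 * y 1 * y 3) s
    (by unfold GG; linarith) a (by norm_num) ?_ b ?_ ?_ c
  · have e1 : q B0 (e 2 σ) = 6 := by simp [q0, e, hσ]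
    linarith
  · rw [mul_pow, hσ, GG, q0, q1, q2]
    nlinarith [sq_nonneg (23 * y 0 - 12 * y 1), sq_nonneg (21 * y 1 + 23 * y 3),
      sq_nonneg (y 3), sq_nonneg (3 * y 0 - 2 * y 1 + 3 * y 3)]
  · rw [GG, q1, q2]
    linear_combination (-2 * y 2 * (3 * y 0 - 2 * y 1 + 3 * y 3)) * hσ
  · have := gb (a := y 0) (b := y 1) (c := y 3) (u := -12) (v := -6) (w := -18) (by norm_num)
      (by norm_num) (by norm_num)
    convert this using 2 <;> ring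

theorem result : ∃ (n : ℕ) (_ : 3 ≤ n) (A0 A1 A2 : Matrix (Fin n) (Fin n) ℝ),
    A0.IsSymm ∧ A1.IsSymm ∧ A2.IsSymm ∧
    ∃ p : Fin 6 → EuclideanSpace ℝ (Fin n), Function.Injective p ∧
      ∀ i, StrictLocMin A0 A1 A2 (p i) ∧ NonGlobal A0 A1 A2 (p i) := by
  refine ⟨4, by norm_num, B0, B1, B2, ?_, ?_, ?_,
    ![e 0 1, e 0 (-1), e 1 1, e 1 (-1), e 2 1, e 2 (-1)], ?_, fun i => ⟨?_, e 3 1,
      ⟨by simp [q1, e], by simp [q2, e]⟩, ?_⟩⟩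
  · ext i j; fin_cases i <;> fin_cases j <;> simp [B0]
  · ext i j; fin_cases i <;> fin_cases j <;> simp [B1]
  · ext i j; fin_cases i <;> fin_cases j <;> simp [B2]
  · intro i j h
    have h0 := congrArg (fun v : EuclideanSpace ℝ (Fin 4) => v 0 + 2 * v 1 + 3 * v 2) h
    fin_cases i <;> fin_cases j <;> first | rfl | (simp [e] at h0; try norm_num at h0)
  · fin_cases i
    exacts [m0 1 (by norm_num), m0 (-1) (by norm_num), m1 1 (by norm_num), m1 (-1) (by norm_num),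
      m2 1 (by norm_num), m2 (-1) (by norm_num)]
  · fin_cases i <;> simp [q0, e] <;> norm_num

end Pool.Agent.Results.MP_4a3f67_an.Six
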